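import Pool.Agent.X255.RH.Main
import Pool.Agent.Y124.StdC

/-!
# Local independence and tame sets, for the theorems about all roots of polynomials
-/

set_option autoImplicit false

open Polynomial Filter Topology

namespace Pool.Agent.J6H45.RT

open Pool.Agent.X255.RH

/-- functions which are independent near one point of an open set are independent on the set -/
theorem indep_of_loc {σ : Type} {U : Set ℂ} (hU : IsOpen U) {f : σ → ℂ → ℂ} {t : ℂ} (ht : t ∈ U)
    (h : Pool.Agent.Y124.LocInd f t) : Indep U f := by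
  refine indep_of_aindepS (Pool.Agent.Y771.KF.AIndepS.eq_1 f U ▸ fun P hP => h P ?_)
  filter_upwards [hU.mem_nhds ht] with z hz
  exact hP z hz

/-- compact subsets are tame -/
theorem tame_compact {K U : Set ℂ} (hK : IsCompact K) (hU : IsOpen U) (hKU : K ⊆ U) : Tame K U := by
  obtain ⟨δ, hδ, h⟩ := hK.exists_thickening_subset_open hU hKU
  refine ⟨∅, δ, hδ, fun R => by simp, fun z hz w hw => Or.inr (Or.inr ?_)⟩
  by_contra hlt
  exact hw (h (Metric.mem_thickening_iff.2 ⟨z, hz, by rw [dist_comm, dist_eq_norm]; exact not_le.1 hlt⟩))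

/-- the upper half-plane is tame -/
theorem tame_upper : Tame {z : ℂ | 0 < z.im} {z : ℂ | 0 < z.im} := by
  refine ⟨∅, 1, one_pos, fun R => by simp, fun z hz w hw => Or.inr (Or.inl ⟨ne_of_gt hz, ?_⟩)⟩
  have h1 : 0 < z.im := hz
  have h2 : w.im ≤ 0 := not_lt.1 hw
  have h3 := Complex.abs_im_le_norm (z - w)
  rw [Complex.sub_im] at h3
  rw [abs_of_pos h1]
  exact le_trans (by linarith) ((le_abs_self _).trans h3)

/-- a subset of a tame set is tame -/
theorem Tame.mono {K L U : Set ℂ} (h : Tame K U) (hL : L ⊆ K) : Tame L U := by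
  obtain ⟨S, c, hc, h1, h2⟩ := h
  exact ⟨S, c, hc, h1, fun z hz => h2 z (hL hz)⟩

end Pool.Agent.J6H45.RT
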