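import Pool.Agent.Results.MP_ede373_nt.ArbitraryCurves
import Pool.Agent.Results.MP_2ad15a_nt.SmallDiscs

/-!
# Independent functions on analytic curves: modular and elliptic
-/

set_option autoImplicit false

open Filter Topology

namespace Pool.Agent.J6H45.RT

open Pool.Agent

section modular

open Pool.Agent.Results.MP_ede373_nt.ArbitraryCurves

theorem modular_loc {U : Set ℂ} {p s : ℕ} {τ : Fin p → ℂ → ℂ} {w : Fin s → ℂ → ℂ} (h : Curve U τ w) :
    ∃ e : Fin (3 * p + s) → Name p s, Function.Injective e ∧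
      (∀ k, AnalyticOnNhd ℂ (fun z => value τ w z (e k)) U) ∧
      ∀ t ∈ U, Y124.LocInd (fun (k : Fin (3 * p + s)) z => value τ w z (e k)) t := by
  obtain ⟨e, he, hL⟩ := Y776.AxJ.exists_loc (fmj h) h.pos
  refine ⟨fun k => nm (e k), nm_inj.comp he, fun k => ?_, fun t ht => ?_⟩
  · intro z hz
    refine (Y776.AxJ.yj_an (fmj h) (e k) z hz).congr ?_
    filter_upwards [h.isOpen.mem_nhds hz] with x hx
    exact (value_eq h hx (e k)).symm
  · intro P hP
    refine hL t ht P ?_
    filter_upwards [hP, h.isOpen.mem_nhds ht] with z hz hzU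
    rw [← hz]
    congr 2
    funext o
    rcases o with _ | k
    · rfl
    · exact (value_eq h hzU (e k)).symm

end modular

section elliptic

open Pool.Agent.Results.MP_2ad15a_nt.SmallDiscs

theorem elliptic_loc {U : Set ℂ} {L : PeriodPair} {r : ℕ} {p : Fin r → ℂ → ℂ} (h : Curve U L p) :
    ∃ e : Fin (2 * r) → Name r, Function.Injective e ∧
      (∀ k, AnalyticOnNhd ℂ (fun z => value L p z (e k)) U) ∧
      ∀ t ∈ U, Y124.LocInd (fun (k : Fin (2 * r)) z => value L p z (e k)) t := by
  have hF : Y776.Cv.FxM U (fun _ : Fin 1 => L) (fun _ => 0) p (fun k : Fin 0 => k.elim0) :=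
    { isOpen := h.isOpen
      conn := h.isPreconnected
      ni := fun c c' h => absurd (Subsingleton.elim c c') h
      ua := h.analytic
      un := h.notMem
      ui := fun _ a b ha _ h' => h.independent a b ha h'
      la := fun k => k.elim0
      li := fun _ _ _ => Subsingleton.elim _ _ }
  obtain ⟨e, he, hL⟩ := Y776.Cv.fix_sub hF (by have := h.pos; omega) h.nonempty
  have h2 : 2 * r = 0 + 2 * r := by omega
  obtain ⟨nm, hnm, hv'⟩ := exists_name r
  have hv : ∀ z i, value L p z (nm i) =
      Y776.Cv.yf (fun _ : Fin 1 => L) (fun _ => 0) p (fun k : Fin 0 => k.elim0) i z := fun z i => hv' L p _ z i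
  have hfun : ∀ (k : Fin (2 * r)), (fun z => value L p z (nm (e (Fin.cast h2 k)))) =
      Y776.Cv.yf (fun _ : Fin 1 => L) (fun _ => 0) p (fun k : Fin 0 => k.elim0) (e (Fin.cast h2 k)) :=
    fun k => funext fun z => hv z _
  refine ⟨fun k => nm (e (Fin.cast h2 k)), hnm.comp (he.comp (Fin.cast_injective h2)), fun k => ?_, fun t ht => ?_⟩
  · rw [hfun k]
    exact Y776.Cv.yf_an hF _
  · have h1 : (fun (k : Fin (2 * r)) z => value L p z (nm (e (Fin.cast h2 k)))) = fun k =>
        Y776.Cv.yf (fun _ : Fin 1 => L) (fun _ => 0) p (fun k : Fin 0 => k.elim0) (e (Fin.cast h2 k)) :=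
      funext fun k => hfun k
    rw [h1]
    exact Y776.Cv.LocInd.comp_inj (hL t ht) (Fin.cast_injective h2)

end elliptic

end Pool.Agent.J6H45.RT
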