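import Pool.Agent.Y776.AxJ.Fun

/-!
# The functions `j`, `j'`, `j''` are algebraically independent over `ℂ(z)`
-/

set_option autoImplicit false

open Filter Topology

namespace Pool.Agent.J6H45.RT

open Pool.Agent.Y776.AxJ

/-- subfamilies of independent families -/
theorem loc_comp {κ κ' : Type} {y : κ → ℂ → ℂ} (e : κ' → κ) (he : Function.Injective e) {t : ℂ}
    (h : Pool.Agent.Y124.LocInd y t) : Pool.Agent.Y124.LocInd (fun k => y (e k)) t := by
  intro P hP
  have h2 : ∀ᶠ t in 𝓝 t, MvPolynomial.eval (fun o : Option κ => o.elim t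
      fun k => y k t) (MvPolynomial.rename (Option.map e) P) = 0 := by
    filter_upwards [hP] with t ht
    rw [MvPolynomial.eval_rename]
    rw [← ht]
    congr 2
    funext o
    rcases o with _ | k <;> rfl
  have h3 := h _ h2
  exact (MvPolynomial.rename_injective _ (Option.map_injective he)) (by rw [h3, map_zero])

theorem fmj_id : Fmj {z : ℂ | 0 < z.im} (fun (_ : Fin 1) (z : ℂ) => z) (fun (k : Fin 0) (_ : ℂ) => k.elim0) where
  op := isOpen_H
  conn := (convex_halfSpace_im_gt 0).isPreconnected
  ne := ⟨Complex.I, by simp⟩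
  ta := fun _ => analyticOnNhd_id
  im := fun _ z hz => hz
  nc := fun _ c => by
    by_cases h : c = Complex.I
    · refine ⟨2 * Complex.I, by simp, fun h2 => ?_⟩
      rw [h] at h2
      have h3 := congrArg Complex.im h2
      norm_num at h3
    · exact ⟨Complex.I, by simp, fun h2 => h h2.symm⟩
  ji := fun i k hik => absurd (Subsingleton.elim i k) hik
  wa := fun k => k.elim0
  wi := fun m c _ => Subsingleton.elim _ _

theorem loc_j3 {t : ℂ} (ht : 0 < t.im) : Pool.Agent.Y124.LocInd (fun (k : Fin 3) z => b4 k.succ z) t := by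
  classical
  obtain ⟨e, he, hL⟩ := exists_loc fmj_id one_pos
  have hne : ∀ k, e k ≠ Sum.inl (0, 0) := by
    intro k hk
    have h1 := hL t ht (MvPolynomial.X none - MvPolynomial.X (some k)) (by
      filter_upwards with z
      simp [hk, yj, b4])
    have h2 := congrArg (MvPolynomial.eval (fun o : Option (Fin (3 * 1 + 0)) => o.elim (1 : ℂ) fun _ => 0)) h1
    simp at h2
  have hcard : Fintype.card (Nj 1 0) = 4 := rfl
  have him : Finset.univ.image e = Finset.univ.erase (Sum.inl (0, 0)) := by
    refine Finset.eq_of_subset_of_card_le (fun x hx => ?_) ?_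
    · obtain ⟨k, -, rfl⟩ := Finset.mem_image.1 hx
      exact Finset.mem_erase.2 ⟨hne k, Finset.mem_univ _⟩
    · rw [Finset.card_image_of_injective _ he, Finset.card_erase_of_mem (Finset.mem_univ _), Finset.card_univ,
        Finset.card_univ, hcard, Fintype.card_fin]
  have hex : ∀ i : Fin 3, ∃ k, e k = Sum.inl (0, i.succ) := by
    intro i
    have h1 : (Sum.inl (0, i.succ) : Nj 1 0) ∈ Finset.univ.image e := by
      rw [him, Finset.mem_erase]
      refine ⟨fun h => ?_, Finset.mem_univ _⟩
      exact absurd (congrArg Prod.snd (Sum.inl.inj h)) (Fin.succ_ne_zero i)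
    obtain ⟨k, -, hk⟩ := Finset.mem_image.1 h1
    exact ⟨k, hk⟩
  choose f hf using hex
  have hfi : Function.Injective f := by
    intro i i' h
    have h1 : (Sum.inl (0, i.succ) : Nj 1 0) = Sum.inl (0, i'.succ) := by rw [← hf i, ← hf i', h]
    exact Fin.succ_injective _ (congrArg Prod.snd (Sum.inl.inj h1))
  have h2 := loc_comp f hfi (hL t ht)
  have h3 : (fun k z => yj (fun (_ : Fin 1) (z : ℂ) => z) (fun (k : Fin 0) (_ : ℂ) => k.elim0) (e (f k)) z) =
      fun (k : Fin 3) z => b4 k.succ z := by
    funext k z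
    rw [hf k]
    rfl
  rw [← h3]
  exact h2

end Pool.Agent.J6H45.RT
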