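import Pool.Agent.X39.Near.DepInt

/-!
# All algebraic numbers close to a number outside of one set of dimension zero, for countably many systems of functions
-/

set_option autoImplicit false

open NumberField

namespace Pool.Agent.J6H45.RT

open Pool.Agent.X39.Near (Size Dep)

/-- There is no relation between the numbers `v`: (1) in the sense of `Dep`, (2) for integral polynomials. -/
def NoRelation {K : Type} {g : ℕ} (v : K → ℂ) (ξ : Fin g → ℂ) (F : Type) [Field F] [NumberField F] (ι : F →+* ℂ)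
    (d A : ℕ) (B T : ℝ) : Prop :=
  ¬ Dep v ξ F ι d A B T ∧
  ∀ P : MvPolynomial K ℤ, P ≠ 0 → (∀ j, P.degreeOf j ≤ d) →
    (∀ e, |((P.coeff e : ℤ) : ℝ)| ≤ T ^ A) → T ^ (-B) < ‖MvPolynomial.aeval v P‖

theorem noRel_of {K : Type} {g : ℕ} {v : K → ℂ} {ξ : Fin g → ℂ} {F : Type} [Field F] [NumberField F] {ι : F →+* ℂ}
    {d A : ℕ} {B T : ℝ} (h : ¬ Dep v ξ F ι d A B T) (hT : 0 < T) : NoRelation v ξ F ι d A B T :=
  ⟨h, fun P hP hPd hPA => Pool.Agent.X39.Near.int_of_not_dep h hT P hP hPd fun e => by exact_mod_cast hPA e⟩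

theorem near_countable {g : ℕ} (ξ : Fin g → ℂ) {I : Type} [Countable I] (J : I → Type) [∀ i, Fintype (J i)]
    (U : I → Set ℂ) (hU : ∀ i, IsOpen (U i)) (f : ∀ i, J i → ℂ → ℂ)
    (han : ∀ i k, ∀ t ∈ U i, AnalyticAt ℂ (f i k) t) (hind : ∀ i, ∀ t ∈ U i, Pool.Agent.Y124.LocInd (f i) t) :
    ∃ E : Set ℂ, dimH E = 0 ∧ ∀ i,
      (∀ x ∈ U i, x ∉ E → ∀ (F : Type) [Field F] [NumberField F] (ι : F →+* ℂ) (d A : ℕ) (ω : ℝ), 0 < ω →
        ∃ B T₁ : ℝ, ∀ T : ℝ, T₁ ≤ T → ∀ t : F, Size F T t → ‖ι t - x‖ ≤ T ^ (-ω) →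
          NoRelation (fun k => f i k (ι t)) ξ F ι d A B T) ∧
      ∀ x : ℝ, Irrational x → (x : ℂ) ∈ U i → (x : ℂ) ∉ E → ∀ d A : ℕ, ∃ (B : ℝ) (n₀ : ℕ), ∀ l : ℕ, n₀ ≤ l →
        NoRelation (fun k => f i k ((x.convergent l : ℚ) : ℂ)) ξ ℚ (algebraMap ℚ ℂ) d A B (x.convergent l).den := by
  choose E hE1 hE2 hE3 using fun i => Pool.Agent.X39.Near.near_dep (U i) (hU i) (f i) (han i) (hind i) ξ
  refine ⟨⋃ i, E i, by rw [dimH_iUnion]; simp [hE1], fun i => ⟨fun x hx hxE F _ _ ι d A ω hω => ?_,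
    fun x hx hxU hxE d A => ?_⟩⟩
  · obtain ⟨B, T₁, h⟩ := hE2 i x hx (fun h => hxE (Set.mem_iUnion.2 ⟨i, h⟩)) F ι d A ω hω
    refine ⟨B, max T₁ 1, fun T hT t ht htx => noRel_of (h T ((le_max_left _ _).trans hT) t ht htx) ?_⟩
    exact lt_of_lt_of_le one_pos ((le_max_right _ _).trans hT)
  · obtain ⟨B, n₀, h⟩ := hE3 i x hx hxU (fun h => hxE (Set.mem_iUnion.2 ⟨i, h⟩)) d A
    exact ⟨B, n₀, fun l hl => noRel_of (h l hl) (by exact_mod_cast (x.convergent l).pos)⟩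

end Pool.Agent.J6H45.RT
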